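import Pool.Agent.W424.KI.Stm

/-! Task KI-RCI: the recursion. -/

set_option autoImplicit false

namespace Pool.Agent.W612.KI
open H974 H906.Cyl
open H12S (Dir hbE segD rimE H4 Crs Nr sqE)
open Pool.Agent.H160R2.ML (nm)
open Pool.Agent.H160R2.MU (Cel csq cpos EP inSq)
open Pool.Agent.W801.OU
open Pool.Agent.W808.KZ (vp fp AdmZ OutF LandZ nrp ZCr mrg)
open Pool.Agent.W424.KI

namespace TRCI

theorem uR_nonneg (R : ℕ) : 0 ≤ uR R :=
  Pr_nonneg (fun _ => by norm_num) _ _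

theorem vA_nonneg (d R : ℕ) : 0 ≤ vA d R :=
  Pr_nonneg (fun _ => by norm_num) _ _

theorem PF_nonneg (R : ℕ) (A : Finset Edg → Prop) : 0 ≤ PF R A :=
  Pr_nonneg (fun _ => by norm_num) _ _

/-- the three steps for a pair of cells -/
theorem one (hDETP : S_DETP) (hSTA : S_STA) (hSTB : S_STB) (N L : ℕ) (Ci Co : Cel)
    (hN : 16 ≤ N) (hL : 3 * N ≤ L) (hi : AdmZ N Ci) (ho : AdmO L Co) (δ : ℝ) (hδ : 0 < δ) :
    ∃ K : ℝ, 0 < K ∧ ∃ r0 : ℕ, ∀ r R : ℕ, r0 ≤ r → 4 * (L * r) ≤ R →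
    Pr (fun _ => (1 / 2 : ℝ)) (boxE (N * r)) (fun F => LandZ N r Ci (↑F : Set Edg)) *
      PF R (fun F => LandO L r Co R (↑F : Set Edg)) ≤
      δ * (uR (N * r / 2) * vA (2 * (L * r)) R) + K * uR R := by
  obtain ⟨KA, hKA, rA, hA⟩ := hSTA N L Ci Co hN hL hi ho (δ / 2) (by positivity)
  obtain ⟨KB, hKB, rB, hB⟩ := hSTB N L Ci Co hN hL hi ho (δ / (2 * KA)) (by positivity)
  refine ⟨KA * KB, by positivity, max (max rA rB) 4, fun r R hr hR => ?_⟩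
  have hrA : rA ≤ r := (le_max_left _ _).trans ((le_max_left _ _).trans hr)
  have hrB : rB ≤ r := (le_max_right _ _).trans ((le_max_left _ _).trans hr)
  have hr4 : 4 ≤ r := (le_max_right _ _).trans hr
  have h1 := hDETP N L r Ci Co R ⟨hN, hL, hr4, hi, ho, hR⟩
  have h2 := hA r R hrA hR
  have h3 := hB r R hrB hR
  have h4 := mul_le_mul_of_nonneg_left h3 hKA.le
  have h5 : KA * (δ / (2 * KA) * (uR (N * r / 2) * vA (2 * (L * r)) R) + KB * uR R) =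
      δ / 2 * (uR (N * r / 2) * vA (2 * (L * r)) R) + KA * KB * uR R := by
    field_simp
  rw [h5] at h4
  linarith

/-- the bound for one outer cell -/
theorem two (hDETP : S_DETP) (hSTA : S_STA) (hSTB : S_STB)
    (hUR : Pool.Agent.W801.OU.S_UR3) (N L : ℕ) (Cs : Finset Cel) (c : ℝ) (rc : ℕ)
    (hN : 16 ≤ N) (hCs : ∀ C ∈ Cs, AdmZ N C) (hc : 0 < c)
    (hcel : ∀ r : ℕ, rc ≤ r → ∃ Ci ∈ Cs, c * (r : ℝ) ^ (-(2 / 3 : ℝ)) ≤
      Pr (fun _ => (1 / 2 : ℝ)) (boxE (N * r)) (fun F => LandZ N r Ci (↑F : Set Edg)))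
    (hL : 3 * N ≤ L) (Co : Cel) (ho : AdmO L Co) (δ : ℝ) (hδ : 0 < δ) :
    ∃ K : ℝ, 0 ≤ K ∧ ∃ r0 : ℕ, ∀ r R : ℕ, r0 ≤ r → 4 * (L * r) ≤ R →
      PF R (fun F => LandO L r Co R (↑F : Set Edg)) ≤
      δ * vA (2 * (L * r)) R + K * ((r : ℝ) / R) ^ (2 / 3 : ℝ) := by
  classical
  obtain ⟨C', hC', hU⟩ := hUR
  have hd' : 0 < δ * c / C' := by positivity
  have hex : ∀ Ci : Cel, ∃ (K : ℝ) (r0 : ℕ), 0 < K ∧ (AdmZ N Ci → ∀ r R : ℕ, r0 ≤ r →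
      4 * (L * r) ≤ R →
      Pr (fun _ => (1 / 2 : ℝ)) (boxE (N * r)) (fun F => LandZ N r Ci (↑F : Set Edg)) *
      PF R (fun F => LandO L r Co R (↑F : Set Edg)) ≤
      δ * c / C' * (uR (N * r / 2) * vA (2 * (L * r)) R) + K * uR R) := by
    intro Ci
    by_cases hi : AdmZ N Ci
    · obtain ⟨K, hK, r0, h⟩ := one hDETP hSTA hSTB N L Ci Co hN hL hi ho _ hd'
      exact ⟨K, r0, hK, fun _ => h⟩
    · exact ⟨1, 0, one_pos, fun h => absurd h hi⟩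
  choose Kf rf hKf hf using hex
  refine ⟨(∑ Ci ∈ Cs, Kf Ci) * C' / c,
    by
      have := Finset.sum_nonneg fun Ci (_ : Ci ∈ Cs) => (hKf Ci).le
      positivity, max (max (Cs.sup rf) rc) 1, fun r R hr hR => ?_⟩
  have hr1 : Cs.sup rf ≤ r := (le_max_left _ _).trans ((le_max_left _ _).trans hr)
  have hr2 : rc ≤ r := (le_max_right _ _).trans ((le_max_left _ _).trans hr)
  have hr3 : 1 ≤ r := (le_max_right _ _).trans hr
  obtain ⟨Ci, hCi, hlow⟩ := hcel r hr2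
  have hmain := hf Ci (hCs Ci hCi) r R ((Finset.le_sup hCi).trans hr1) hR
  have hR1 : 1 ≤ R := by
    have h1 : 1 ≤ L * r := Nat.mul_pos (by omega) (by omega)
    omega
  have hr0 : (0 : ℝ) < r := by exact_mod_cast hr3
  have hR0 : (0 : ℝ) < R := by exact_mod_cast hR1
  obtain ⟨rp, hrp⟩ : ∃ rp : ℝ, rp = (r : ℝ) ^ (-(2 / 3 : ℝ)) := ⟨_, rfl⟩
  obtain ⟨Rp, hRp⟩ : ∃ Rp : ℝ, Rp = (R : ℝ) ^ (-(2 / 3 : ℝ)) := ⟨_, rfl⟩
  have hrp0 : 0 < rp := by rw [hrp]; exact Real.rpow_pos_of_pos hr0 _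
  have hRp0 : 0 < Rp := by rw [hRp]; exact Real.rpow_pos_of_pos hR0 _
  have hquot : ((r : ℝ) / R) ^ (2 / 3 : ℝ) = Rp / rp := by
    rw [Real.div_rpow hr0.le hR0.le, hrp, hRp, Real.rpow_neg hr0.le, Real.rpow_neg hR0.le]
    have h1 : (r : ℝ) ^ (2 / 3 : ℝ) ≠ 0 := (Real.rpow_pos_of_pos hr0 _).ne'
    have h2 : (R : ℝ) ^ (2 / 3 : ℝ) ≠ 0 := (Real.rpow_pos_of_pos hR0 _).ne'
    field_simp
  have hu1 : uR (N * r / 2) ≤ C' * rp := by
    have h0 : r ≤ N * r / 2 := by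
      rw [Nat.le_div_iff_mul_le (by norm_num)]
      nlinarith
    refine (hU (N * r / 2) (hr3.trans h0)).trans ?_
    rw [hrp]
    refine mul_le_mul_of_nonneg_left ?_ hC'.le
    exact Real.rpow_le_rpow_of_nonpos hr0 (by exact_mod_cast h0) (by norm_num)
  have hu2 : uR R ≤ C' * Rp := by
    rw [hRp]
    exact hU R hR1
  obtain ⟨P, hP⟩ : ∃ P : ℝ, P = PF R (fun F => LandO L r Co R (↑F : Set Edg)) := ⟨_, rfl⟩
  obtain ⟨V, hV⟩ : ∃ V : ℝ, V = vA (2 * (L * r)) R := ⟨_, rfl⟩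
  obtain ⟨S, hS⟩ : ∃ S : ℝ, S = ∑ Ci ∈ Cs, Kf Ci := ⟨_, rfl⟩
  have hP0 : 0 ≤ P := by rw [hP]; exact PF_nonneg _ _
  have hV0 : 0 ≤ V := by rw [hV]; exact vA_nonneg _ _
  have hKS : Kf Ci ≤ S := by
    rw [hS]
    exact Finset.single_le_sum (f := Kf) (fun C _ => (hKf C).le) hCi
  have hS0 : 0 ≤ S := (hKf Ci).le.trans hKS
  rw [← hP, ← hV] at hmain
  rw [← hrp] at hlow
  rw [← hP, ← hV, ← hS, hquot]
  have k1 : c * rp * P ≤ δ * c / C' * (C' * rp * V) + S * (C' * Rp) := by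
    refine (mul_le_mul_of_nonneg_right hlow hP0).trans (hmain.trans ?_)
    refine add_le_add (mul_le_mul_of_nonneg_left (mul_le_mul_of_nonneg_right hu1 hV0) hd'.le) ?_
    exact mul_le_mul hKS hu2 (uR_nonneg R) hS0
  have k2 : δ * c / C' * (C' * rp * V) + S * (C' * Rp) =
      c * rp * (δ * V + S * C' / c * (Rp / rp)) := by
    field_simp
  rw [k2] at k1
  exact le_of_mul_le_mul_left k1 (by positivity)

end TRCI

open TRCI in
theorem t_RCI : S_LANO → S_CEL → S_DETP → S_STA → S_STB → Pool.Agent.W801.OU.S_UR3 → S_RCI := by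
  classical
  intro hLANO hCEL hDETP hSTA hSTB hUR δ hδ
  obtain ⟨N, Cs, c, rc, hN, hCs, hc, hcel⟩ := hCEL
  obtain ⟨L, hL, Co, hCo, r1, hlan⟩ := hLANO (δ / 2) (by positivity) (3 * N)
  have hδ' : 0 < δ / (2 * ((Co.card : ℝ) + 1)) := by positivity
  have hex : ∀ C : Cel, ∃ (K : ℝ) (r0 : ℕ), 0 ≤ K ∧ (AdmO L C → ∀ r R : ℕ, r0 ≤ r →
      4 * (L * r) ≤ R → PF R (fun F => LandO L r C R (↑F : Set Edg)) ≤
      δ / (2 * ((Co.card : ℝ) + 1)) * vA (2 * (L * r)) R +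
        K * ((r : ℝ) / R) ^ (2 / 3 : ℝ)) := by
    intro C
    by_cases hi : AdmO L C
    · obtain ⟨K, hK, r0, h⟩ := two hDETP hSTA hSTB hUR N L Cs c rc hN hCs hc hcel hL C hi _ hδ'
      exact ⟨K, r0, hK, fun _ => h⟩
    · exact ⟨0, 0, le_rfl, fun h => absurd h hi⟩
  choose Kf rf hKf hf using hex
  have hS0 : 0 ≤ ∑ C ∈ Co, Kf C := Finset.sum_nonneg fun C _ => hKf C
  refine ⟨L, by omega, (∑ C ∈ Co, Kf C) + 1, by positivity, max (Co.sup rf) r1,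
    fun r R hr hR => ?_⟩
  have hr1 : Co.sup rf ≤ r := (le_max_left _ _).trans hr
  have hr2 : r1 ≤ r := (le_max_right _ _).trans hr
  have h1 := hlan r R hr2 hR
  have h2 : ∑ C ∈ Co, PF R (fun F => LandO L r C R (↑F : Set Edg)) ≤
      ∑ C ∈ Co, (δ / (2 * ((Co.card : ℝ) + 1)) * vA (2 * (L * r)) R +
        Kf C * ((r : ℝ) / R) ^ (2 / 3 : ℝ)) :=
    Finset.sum_le_sum fun C hC => hf C (hCo C hC) r R ((Finset.le_sup hC).trans hr1) hR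
  rw [Finset.sum_add_distrib, Finset.sum_const, nsmul_eq_mul, ← Finset.sum_mul] at h2
  have hq0 : 0 ≤ ((r : ℝ) / R) ^ (2 / 3 : ℝ) := by positivity
  have hV0 := vA_nonneg (2 * (L * r)) R
  have h3 : (Co.card : ℝ) * (δ / (2 * ((Co.card : ℝ) + 1)) * vA (2 * (L * r)) R) ≤
      δ / 2 * vA (2 * (L * r)) R := by
    have h4 : (Co.card : ℝ) * (δ / (2 * ((Co.card : ℝ) + 1))) ≤ δ / 2 := by
      have h5 : (0 : ℝ) ≤ Co.card := Nat.cast_nonneg _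
      rw [mul_div_assoc', div_le_div_iff₀ (by positivity) (by norm_num)]
      nlinarith
    rw [← mul_assoc]
    exact mul_le_mul_of_nonneg_right h4 hV0
  nlinarith

end Pool.Agent.W612.KI
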